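import Pool.Agent.Helper721_C.Final

/-!
# Finite p-groups with as many class-preserving automorphisms as possible

The finite `p`-groups `G` with `|Aut_c(G)| = |γ₂(G)|^d`, `d` the number of generators.
-/

set_option autoImplicit false

open scoped commutatorElement

namespace Pool.Agent.Results.MP_932391_al.Classification

/-- A finite `p`-group `G` on `d = d(G)` generators satisfies `|Aut_c(G)| = |γ₂(G)|^d` exactly
when one of the following holds.

* (A) `γ₃(G) = 1` and `x^G = x γ₂(G)` for every `x` outside the Frattini subgroup;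
* (B) `d = 2`, `γ₂(G)` is cyclic and, if `p = 2`, then `γ₃(G) ≤ γ₂(G)^4`;
* (C) `p = 2`, `d = 2`, `γ₂(G)` has exponent dividing two, and `γ₄(G) = 1`. -/
theorem result (p : ℕ) [Fact p.Prime] (G : Type) [Group G] [Finite G] (hG : IsPGroup p G) :
    Nat.card {α : G ≃* G // ∀ w : G, IsConj w (α w)} = Nat.card (commutator G) ^ Group.rank G ↔
      (⁅commutator G, (⊤ : Subgroup G)⁆ = ⊥ ∧
        ∀ x : G, x ∉ frattini G → ∀ u ∈ commutator G, IsConj x (x * u)) ∨
      (Group.rank G = 2 ∧ IsCyclic (commutator G) ∧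
        (p = 2 → ∀ u ∈ commutator G, ∀ g : G, ∃ v ∈ commutator G, ⁅u, g⁆ = v ^ 4)) ∨
      (p = 2 ∧ Group.rank G = 2 ∧ (∀ u ∈ commutator G, u ^ 2 = 1) ∧
        ⁅⁅commutator G, (⊤ : Subgroup G)⁆, (⊤ : Subgroup G)⁆ = ⊥) :=
  Pool.Agent.Helper721_C.classification p hG

end Pool.Agent.Results.MP_932391_al.Classification
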